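import Mathlib

/-!
Combinatorial lemma for MP_5c6457_an: the Cayley graphs of `ℤ` and `ℤ²` attached to finite
sets are never isomorphic via a bijection compatible with all level sets.
-/

namespace Pool.Agent.MP_5c6457_an

/-- If `c j = A (σ (k + j) - σ k)` for all `k, j`, where `σ : ℤ ≃ ℤ × ℤ` and all superlevel
sets `{A ≥ ε}`, `ε > 0`, are finite, then `c j ≤ 0` for `j ≠ 0`. -/
theorem comb_lemma (σ : ℤ ≃ ℤ × ℤ) (c : ℤ → ℝ) (A : ℤ × ℤ → ℝ)
    (h : ∀ k j : ℤ, c j = A (σ (k + j) - σ k))
    (hfin : ∀ ε : ℝ, 0 < ε → {p : ℤ × ℤ | ε ≤ A p}.Finite)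
    (j₀ : ℤ) (hj : j₀ ≠ 0) : c j₀ ≤ 0 := by
  by_contra hcon
  push Not at hcon
  set ε := c j₀ with hε
  set F := {p : ℤ × ℤ | ε ≤ A p} with hF
  have hFfin : F.Finite := hfin ε hcon
  set J := {j : ℤ | ε ≤ c j} with hJ
  have hJfin : J.Finite := by
    have hsub : J ⊆ (fun j : ℤ => σ j - σ 0) ⁻¹' F := by
      intro j hj
      simp only [Set.mem_preimage, hF, Set.mem_ofPred_eq]
      have := h 0 j
      rw [zero_add] at this
      rw [← this]
      exact hj
    refine (Set.Finite.preimage ?_ hFfin).subset hsub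
    intro a _ b _ hab
    have : σ a = σ b := by simpa using hab
    exact σ.injective this
  obtain ⟨M, hM⟩ : ∃ M : ℕ, ∀ j ∈ J, |j| ≤ (M : ℤ) := by
    obtain ⟨B, hB⟩ := (hJfin.image (fun j => |j|)).bddAbove
    refine ⟨B.toNat, fun j hj => ?_⟩
    have h1 : |j| ≤ B := hB ⟨j, hj, rfl⟩
    exact h1.trans (Int.self_le_toNat B)
  -- Step 1: no linear functional kills `F`
  have step1 : ∀ a b : ℤ, (a, b) ≠ (0, 0) → ∃ l ∈ F, a * l.1 + b * l.2 ≠ 0 := by
    intro a b hab
    by_contra hno
    push Not at hno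
    set ψ : ℤ → ℤ := fun k => a * (σ k).1 + b * (σ k).2 with hψ
    have hper : Function.Periodic ψ j₀ := by
      intro k
      have hm : σ (k + j₀) - σ k ∈ F := by
        simp only [hF, Set.mem_ofPred_eq]
        rw [← h k j₀]
      have := hno _ hm
      simp only [Prod.fst_sub, Prod.snd_sub] at this
      simp only [hψ]
      linarith [this]
    have hred : ∀ k, ψ k = ψ (k % j₀) := by
      intro k
      have h1 : k = k % j₀ + (k / j₀) • j₀ := by
        have := Int.emod_add_mul_ediv k j₀
        simp only [smul_eq_mul]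
        linarith [mul_comm j₀ (k / j₀)]
      conv_lhs => rw [h1]
      exact (hper.zsmul (k / j₀)) _
    obtain ⟨K, hK⟩ : ∃ K : ℕ, ∀ k, |ψ k| ≤ (K : ℤ) := by
      have hfinset : ((Finset.Ico (0 : ℤ) |j₀| : Finset ℤ) : Set ℤ).Finite := Finset.finite_toSet _
      obtain ⟨B, hB⟩ := (hfinset.image (fun k => |ψ k|)).bddAbove
      refine ⟨B.toNat, fun k => ?_⟩
      have h1 : |ψ (k % j₀)| ≤ B := by
        apply hB
        refine ⟨k % j₀, ?_, rfl⟩
        simp only [Finset.coe_Ico, Set.mem_Ico]
        exact ⟨Int.emod_nonneg k hj, Int.emod_lt_abs k hj⟩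
      rw [hred k]
      exact h1.trans (Int.self_le_toNat B)
    set t : ℤ := (K : ℤ) + 1 with ht
    have h2 := hK (σ.symm (t * a, t * b))
    simp only [hψ, Equiv.apply_symm_apply] at h2
    have h3 : 1 ≤ a ^ 2 + b ^ 2 := by
      by_cases ha : a = 0
      · have hb : b ≠ 0 := by
          intro hb
          exact hab (by rw [ha, hb])
        have : 0 < b ^ 2 := by positivity
        have := sq_nonneg a
        linarith
      · have : 0 < a ^ 2 := by positivity
        have := sq_nonneg b
        linarith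
    have h4 : a * (t * a) + b * (t * b) = t * (a ^ 2 + b ^ 2) := by ring
    rw [h4] at h2
    have h5 := le_abs_self (t * (a ^ 2 + b ^ 2))
    have h6 : t ≤ t * (a ^ 2 + b ^ 2) := by
      have : 0 ≤ t := by positivity
      nlinarith
    linarith
  obtain ⟨l, hl, hl1⟩ := step1 1 0 (by simp)
  have hl1' : l.1 ≠ 0 := by simpa using hl1
  obtain ⟨m, hm, hm1⟩ := step1 (-l.2) l.1 (by
    intro heq
    have : l.1 = 0 := by simpa using congrArg Prod.snd heq
    exact hl1' this)
  -- one-step bound
  have hstep : ∀ p q : ℤ × ℤ, q ∈ F → |σ.symm (p + q) - σ.symm p| ≤ (M : ℤ) := by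
    intro p q hq
    apply hM
    simp only [hJ, Set.mem_ofPred_eq]
    rw [h (σ.symm p) (σ.symm (p + q) - σ.symm p)]
    simp only [add_sub_cancel, Equiv.apply_symm_apply, add_sub_cancel_left]
    exact hq
  set g : ℕ × ℕ → ℤ := fun uv => σ.symm (σ 0 + uv.1 • l + uv.2 • m) with hg
  have hbound : ∀ u v : ℕ, |g (u, v)| ≤ (M : ℤ) * (u + v) := by
    intro u v
    induction u with
    | zero =>
      induction v with
      | zero => simp [hg]
      | succ v ih =>
        have h1 : g (0, v + 1) = σ.symm ((σ 0 + (0 : ℕ) • l + v • m) + m) := by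
          simp only [hg, succ_nsmul, add_assoc]
        have h2 := hstep (σ 0 + (0 : ℕ) • l + v • m) m hm
        rw [← h1] at h2
        have h3 : σ.symm (σ 0 + (0 : ℕ) • l + v • m) = g (0, v) := rfl
        rw [h3] at h2
        have h4 := abs_add_le (g (0, v + 1) - g (0, v)) (g (0, v))
        rw [sub_add_cancel] at h4
        push_cast at ih ⊢
        linarith
    | succ u ih =>
      have h1 : g (u + 1, v) = σ.symm ((σ 0 + u • l + v • m) + l) := by
        simp only [hg, succ_nsmul]
        congr 1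
        abel
      have h2 := hstep (σ 0 + u • l + v • m) l hl
      rw [← h1] at h2
      have h3 : σ.symm (σ 0 + u • l + v • m) = g (u, v) := rfl
      rw [h3] at h2
      have h4 := abs_add_le (g (u + 1, v) - g (u, v)) (g (u, v))
      rw [sub_add_cancel] at h4
      push_cast at ih ⊢
      linarith
  have hginj : Function.Injective g := by
    rintro ⟨u, v⟩ ⟨u', v'⟩ huv
    have h1 : σ 0 + u • l + v • m = σ 0 + u' • l + v' • m := σ.symm.injective huv
    have e1 := congrArg Prod.fst h1
    have e2 := congrArg Prod.snd h1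
    simp only [Prod.fst_add, Prod.snd_add, Prod.smul_fst, Prod.smul_snd] at e1 e2
    simp only [nsmul_eq_mul] at e1 e2
    have f1 : ((u : ℤ) - u') * l.1 + ((v : ℤ) - v') * m.1 = 0 := by linarith
    have f2 : ((u : ℤ) - u') * l.2 + ((v : ℤ) - v') * m.2 = 0 := by linarith
    have f3 : ((v : ℤ) - v') * (-l.2 * m.1 + l.1 * m.2) = 0 := by
      have : ((v : ℤ) - v') * (-l.2 * m.1 + l.1 * m.2)
        = l.1 * (((u : ℤ) - u') * l.2 + ((v : ℤ) - v') * m.2)
          - l.2 * (((u : ℤ) - u') * l.1 + ((v : ℤ) - v') * m.1) := by ring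
      rw [this, f1, f2]; ring
    have f4 : (v : ℤ) - v' = 0 := by
      rcases mul_eq_zero.1 f3 with h0 | h0
      · exact h0
      · exact absurd h0 hm1
    have f5 : (u : ℤ) - u' = 0 := by
      rw [f4, zero_mul, add_zero] at f1
      rcases mul_eq_zero.1 f1 with h0 | h0
      · exact h0
      · exact absurd h0 hl1'
    have g1 : u = u' := by omega
    have g2 : v = v' := by omega
    rw [g1, g2]
  -- counting
  set r : ℕ := 4 * M + 1 with hr
  set P : Finset (ℕ × ℕ) := Finset.range (r + 1) ×ˢ Finset.range (r + 1) with hP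
  have hmaps : ∀ uv ∈ P, g uv ∈ Finset.Icc (-(2 * r * M : ℤ)) (2 * r * M) := by
    rintro ⟨u, v⟩ huv
    simp only [hP, Finset.mem_product, Finset.mem_range] at huv
    have h1 := hbound u v
    have hu : (u : ℤ) ≤ r := by
      have := huv.1
      omega
    have hv : (v : ℤ) ≤ r := by
      have := huv.2
      omega
    have h2 : (M : ℤ) * (u + v) ≤ 2 * r * M := by
      have hM0 : (0 : ℤ) ≤ M := by positivity
      nlinarith
    rw [Finset.mem_Icc, ← abs_le]
    exact h1.trans h2
  have hcard := Finset.card_le_card_of_injOn g hmaps (hginj.injOn)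
  have hc1 : P.card = (r + 1) * (r + 1) := by
    simp [hP]
  have hc2 : (Finset.Icc (-(2 * r * M : ℤ)) (2 * r * M)).card = 4 * r * M + 1 := by
    rw [Int.card_Icc]
    have : (2 * (r : ℤ) * M + 1 - -(2 * r * M)) = ((4 * r * M + 1 : ℕ) : ℤ) := by
      push_cast; ring
    rw [this, Int.toNat_natCast]
  rw [hc1, hc2] at hcard
  rw [hr] at hcard
  nlinarith

end Pool.Agent.MP_5c6457_an
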