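import Mathlib

/-!
Definitions for MP_5c6457_an (operator representations of Gabor frames).
-/

open MeasureTheory

noncomputable section

namespace Pool.Agent.MP_5c6457_an

/-- `f` is a frame for the Hilbert space `H`: there are constants `0 < A`, `0 < B` with
`A ‖x‖² ≤ ∑ |⟨f i, x⟩|² ≤ B ‖x‖²` for all `x` (the sum being convergent). -/
def IsFrame {H : Type*} [NormedAddCommGroup H] [InnerProductSpace ℂ H] {ι : Type*}
    (f : ι → H) : Prop :=
  ∃ A B : ℝ, 0 < A ∧ 0 < B ∧ ∀ x : H,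
    Summable (fun i => ‖inner ℂ (f i) x‖ ^ 2) ∧
    A * ‖x‖ ^ 2 ≤ ∑' i, ‖inner ℂ (f i) x‖ ^ 2 ∧
    ∑' i, ‖inner ℂ (f i) x‖ ^ 2 ≤ B * ‖x‖ ^ 2

/-- `f` is a Riesz basis of `H`: its span is dense and there are constants `0 < A`, `0 < B` with
`A ∑ |c i|² ≤ ‖∑ c i • f i‖² ≤ B ∑ |c i|²` for all finite sums. -/
def IsRieszBasis {H : Type*} [NormedAddCommGroup H] [InnerProductSpace ℂ H] {ι : Type*}
    (f : ι → H) : Prop :=
  (Submodule.span ℂ (Set.range f)).topologicalClosure = ⊤ ∧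
  ∃ A B : ℝ, 0 < A ∧ 0 < B ∧ ∀ (s : Finset ι) (c : ι → ℂ),
    A * ∑ i ∈ s, ‖c i‖ ^ 2 ≤ ‖∑ i ∈ s, c i • f i‖ ^ 2 ∧
    ‖∑ i ∈ s, c i • f i‖ ^ 2 ≤ B * ∑ i ∈ s, ‖c i‖ ^ 2

/-- Bounded representation for the index set `ℕ₀`: there are `φ` and a bounded linear operator
`T : span {f k} → H` with `f k = T ^ k φ` for all `k ≥ 0`, that is, `f 0 = φ` and
`T (f k) = f (k + 1)`. -/
def HasBoundedRepNat {H : Type*} [NormedAddCommGroup H] [InnerProductSpace ℂ H]
    (f : ℕ → H) : Prop :=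
  ∃ (φ : H) (T : Submodule.span ℂ (Set.range f) →L[ℂ] H), f 0 = φ ∧
    ∀ k : ℕ, T ⟨f k, Submodule.subset_span ⟨k, rfl⟩⟩ = f (k + 1)

/-- Bounded representation for the index set `ℤ`: there are `φ` and a bounded linear operator
`T : span {f k} → H`, injective so that its negative powers make sense, with `f k = T ^ k φ` for
all `k ∈ ℤ`, that is, `f 0 = φ` and `T (f k) = f (k + 1)` for all `k ∈ ℤ`. -/
def HasBoundedRepInt {H : Type*} [NormedAddCommGroup H] [InnerProductSpace ℂ H]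
    (f : ℤ → H) : Prop :=
  ∃ (φ : H) (T : Submodule.span ℂ (Set.range f) →L[ℂ] H), Function.Injective T ∧ f 0 = φ ∧
    ∀ k : ℤ, T ⟨f k, Submodule.subset_span ⟨k, rfl⟩⟩ = f (k + 1)

/-- The Hilbert space `L²(ℝ)` of complex-valued functions. -/
abbrev L2R : Type := Lp ℂ 2 (volume : Measure ℝ)

/-- Translation `T_x f(t) = f(t - x)` on `L²(ℝ)`. -/
def translation (x : ℝ) (f : L2R) : L2R :=
  Lp.compMeasurePreserving (fun t : ℝ => t - x) (measurePreserving_sub_right volume x) f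

lemma norm_expI (x t : ℝ) : ‖Complex.exp (2 * Real.pi * Complex.I * x * t)‖ = 1 := by
  have : (2 * Real.pi * Complex.I * x * t : ℂ) = ((2 * Real.pi * x * t : ℝ) : ℂ) * Complex.I := by
    push_cast; ring
  rw [this, Complex.norm_exp_ofReal_mul_I]

lemma continuous_expI (x : ℝ) :
    Continuous (fun t : ℝ => Complex.exp (2 * Real.pi * Complex.I * x * t)) := by
  fun_prop

lemma modulation_memLp (x : ℝ) (f : L2R) :
    MemLp (fun t : ℝ => Complex.exp (2 * Real.pi * Complex.I * x * t) * f t) 2 volume := by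
  refine (Lp.memLp f).congr_norm ?_ ?_
  · exact ((continuous_expI x).aestronglyMeasurable).mul (Lp.aestronglyMeasurable f)
  · filter_upwards with t
    rw [norm_mul, norm_expI, one_mul]

/-- Modulation `E_x f(t) = exp(2 π i x t) f(t)` on `L²(ℝ)`. -/
def modulation (x : ℝ) (f : L2R) : L2R := (modulation_memLp x f).toLp _

/-- The Gabor system: `gabor g a b (m, n) = E_{mb} T_{na} g`. -/
def gabor (g : L2R) (a b : ℝ) (p : ℤ × ℤ) : L2R :=
  modulation (p.1 * b) (translation (p.2 * a) g)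

/-- The class `C_I` for `I = ℕ₀`: `g ≠ 0`, `a, b > 0`, the Gabor system is a frame, and some
ordering indexed by `ℕ₀` admits a bounded representation. -/
def ClassNat (g : L2R) (a b : ℝ) : Prop :=
  g ≠ 0 ∧ 0 < a ∧ 0 < b ∧ IsFrame (gabor g a b) ∧
    ∃ σ : ℕ ≃ ℤ × ℤ, HasBoundedRepNat (fun k => gabor g a b (σ k))

/-- The class `C_I` for `I = ℤ`. -/
def ClassInt (g : L2R) (a b : ℝ) : Prop :=
  g ≠ 0 ∧ 0 < a ∧ 0 < b ∧ IsFrame (gabor g a b) ∧
    ∃ σ : ℤ ≃ ℤ × ℤ, HasBoundedRepInt (fun k => gabor g a b (σ k))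

end Pool.Agent.MP_5c6457_an
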