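import Mathlib
import Pool.Agent.Lib.MP_5c6457_an.Defs

/-!
Abstract frame theory used for MP_5c6457_an.
-/

open scoped ENNReal InnerProductSpace

noncomputable section

namespace Pool.Agent.MP_5c6457_an

variable {H : Type*} [NormedAddCommGroup H] [InnerProductSpace ℂ H]

set_option linter.unusedSectionVars false

section Analysis

variable {ι : Type*} {f : ι → H}

lemma memlp_of_summable {c : ι → ℂ} (h : Summable (fun i => ‖c i‖ ^ 2)) :
    Memℓp c 2 := by
  apply memℓp_gen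
  simpa using h

lemma lp_norm_sq (c : lp (fun _ : ι => ℂ) 2) : ‖c‖ ^ 2 = ∑' i, ‖c i‖ ^ 2 := by
  have h := lp.norm_rpow_eq_tsum (p := 2) (by norm_num) c
  simpa using h

lemma lp_summable (c : lp (fun _ : ι => ℂ) 2) : Summable (fun i => ‖c i‖ ^ 2) := by
  have h := (memℓp_gen_iff (p := 2) (by norm_num)).1 (lp.memℓp c)
  simpa using h

/-- The analysis operator. -/
def anal (f : ι → H) (B : ℝ)
    (hs : ∀ x : H, Summable (fun i => ‖inner ℂ (f i) x‖ ^ 2))
    (hB : ∀ x : H, ∑' i, ‖inner ℂ (f i) x‖ ^ 2 ≤ B * ‖x‖ ^ 2) :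
    H →L[ℂ] lp (fun _ : ι => ℂ) 2 :=
  LinearMap.mkContinuous
    { toFun := fun x => ⟨fun i => inner ℂ (f i) x, memlp_of_summable (hs x)⟩
      map_add' := by
        intro x y
        ext i
        exact inner_add_right _ _ _
      map_smul' := by
        intro c x
        ext i
        exact inner_smul_right _ _ _ }
    (Real.sqrt B)
    (by
      intro x
      rw [← Real.sqrt_sq (norm_nonneg x), ← Real.sqrt_mul' _ (sq_nonneg _)]
      apply Real.le_sqrt_of_sq_le
      rw [lp_norm_sq]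
      exact hB x)

@[simp] lemma anal_apply (B : ℝ)
    (hs : ∀ x : H, Summable (fun i => ‖inner ℂ (f i) x‖ ^ 2))
    (hB : ∀ x : H, ∑' i, ‖inner ℂ (f i) x‖ ^ 2 ≤ B * ‖x‖ ^ 2) (x : H) (i : ι) :
    anal f B hs hB x i = inner ℂ (f i) x := rfl

end Analysis

/-- If `‖q x‖ ≤ ‖p x‖` for all `x` with equality at `a` then `⟨p a, p y⟩ = ⟨q a, q y⟩`. -/
lemma inner_eq_of_norm_le {K : Type*} [NormedAddCommGroup K] [InnerProductSpace ℂ K]
    (p q : H →ₗ[ℂ] K) (h : ∀ x, ‖q x‖ ≤ ‖p x‖) {a : H} (ha : ‖q a‖ = ‖p a‖) (y : H) :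
    inner ℂ (p a) (p y) = inner ℂ (q a) (q y) := by
  set w : ℂ := inner ℂ (p a) (p y) - inner ℂ (q a) (q y) with hw
  by_contra hne
  have hw0 : w ≠ 0 := sub_ne_zero.2 hne
  set D : ℝ := ‖p y‖ ^ 2 - ‖q y‖ ^ 2 with hD
  have hD0 : 0 ≤ D := by
    have := h y
    have h1 : ‖q y‖ ^ 2 ≤ ‖p y‖ ^ 2 := by gcongr
    linarith
  -- expand at `a + t • y`
  have key : ∀ t : ℂ, 0 ≤ 2 * (t * w).re + ‖t‖ ^ 2 * D := by
    intro t
    have h1 : ‖q (a + t • y)‖ ^ 2 ≤ ‖p (a + t • y)‖ ^ 2 := by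
      have := h (a + t • y)
      gcongr
    have e : ∀ r : H →ₗ[ℂ] K, ‖r (a + t • y)‖ ^ 2
        = ‖r a‖ ^ 2 + 2 * (t * inner ℂ (r a) (r y)).re + ‖t‖ ^ 2 * ‖r y‖ ^ 2 := by
      intro r
      rw [map_add, map_smul, @norm_add_sq ℂ, inner_smul_right, norm_smul, mul_pow]
      rfl
    rw [e, e, ha] at h1
    have h2 : (t * w).re = (t * inner ℂ (p a) (p y)).re - (t * inner ℂ (q a) (q y)).re := by
      rw [hw, mul_sub, Complex.sub_re]
    rw [h2, hD]
    linarith
  have hwpos : 0 < ‖w‖ ^ 2 := by positivity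
  set ε : ℝ := 1 / (D + 1) with hε
  have hεpos : 0 < ε := by positivity
  have h3 := key (-(ε : ℂ) * (starRingEnd ℂ) w)
  have h4 : (-(ε : ℂ) * (starRingEnd ℂ) w * w).re = - ε * ‖w‖ ^ 2 := by
    rw [mul_assoc, mul_comm ((starRingEnd ℂ) w) w, Complex.mul_conj, Complex.normSq_eq_norm_sq]
    rw [← Complex.ofReal_neg, ← Complex.ofReal_mul, Complex.ofReal_re]
  have h5 : ‖-(ε : ℂ) * (starRingEnd ℂ) w‖ ^ 2 = ε ^ 2 * ‖w‖ ^ 2 := by
    rw [norm_mul, norm_neg, Complex.norm_real, RCLike.norm_conj, mul_pow, Real.norm_eq_abs, sq_abs]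
  rw [h4, h5] at h3
  have h6 : ε * D < 1 := by
    rw [hε, one_div, inv_mul_lt_iff₀ (by positivity)]
    linarith
  nlinarith [mul_pos hεpos hwpos]

variable [CompleteSpace H]

section Operator

variable {ι : Type*} {f : ι → H}

/-- The data extracted from a frame: an analysis operator `C` and the inverse `R` of the frame
operator `C† C`. -/
structure FrameData (f : ι → H) where
  C : H →L[ℂ] lp (fun _ : ι => ℂ) 2
  hC : ∀ x i, C x i = inner ℂ (f i) x
  R : H →L[ℂ] H
  hR : ∀ x y, inner ℂ (C (R x)) (C y) = inner ℂ x y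
  A : ℝ
  hA : 0 < A
  hAC : ∀ x, A * ‖x‖ ^ 2 ≤ ‖C x‖ ^ 2

lemma exists_frameData (hf : IsFrame f) : Nonempty (FrameData f) := by
  obtain ⟨A, B, hA, hB, h⟩ := hf
  set C := anal f B (fun x => (h x).1) (fun x => (h x).2.2) with hCdef
  have hCn : ∀ x, A * ‖x‖ ^ 2 ≤ ‖C x‖ ^ 2 := by
    intro x
    rw [lp_norm_sq]
    exact (h x).2.1
  set S : H →L[ℂ] H := (ContinuousLinearMap.adjoint C).comp C with hS
  have hSi : ∀ x y, inner ℂ (S x) y = inner ℂ (C x) (C y) := by
    intro x y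
    simp [hS, ContinuousLinearMap.adjoint_inner_left]
  have hSi' : ∀ x y, inner ℂ x (S y) = inner ℂ (C x) (C y) := by
    intro x y
    simp [hS, ContinuousLinearMap.adjoint_inner_right]
  have hbelow : ∀ x, A * ‖x‖ ≤ ‖S x‖ := by
    intro x
    by_cases hx : x = 0
    · simp [hx]
    have hxp : 0 < ‖x‖ := norm_pos_iff.2 hx
    have h1 : A * ‖x‖ ^ 2 ≤ ‖S x‖ * ‖x‖ := by
      calc A * ‖x‖ ^ 2 ≤ ‖C x‖ ^ 2 := hCn x
        _ = ‖inner ℂ (C x) (C x)‖ := by
          rw [@inner_self_eq_norm_sq_to_K ℂ]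
          simp
        _ = ‖inner ℂ (S x) x‖ := by rw [hSi]
        _ ≤ ‖S x‖ * ‖x‖ := norm_inner_le_norm _ _
    have h2 : (A * ‖x‖) * ‖x‖ ≤ ‖S x‖ * ‖x‖ := by nlinarith
    exact le_of_mul_le_mul_right h2 hxp
  have hinj : S.ker = ⊥ := by
    rw [Submodule.eq_bot_iff]
    intro x hx
    have hx' : S x = 0 := hx
    have := hbelow x
    rw [hx', norm_zero] at this
    have h0 : ‖x‖ ≤ 0 := by
      by_contra hcon
      push Not at hcon
      nlinarith
    exact norm_le_zero_iff.1 h0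
  have hanti : AntilipschitzWith (Real.toNNReal (1 / A)) S := by
    apply ContinuousLinearMap.antilipschitz_of_bound
    intro x
    rw [Real.coe_toNNReal _ (by positivity)]
    rw [div_mul_eq_mul_div, one_mul, le_div_iff₀ hA]
    linarith [hbelow x]
  have hclosed : IsClosed (S.range : Set H) := by
    have h1 : IsClosed (Set.range S) := hanti.isClosed_range S.uniformContinuous
    exact h1
  have hrange : S.range = ⊤ := by
    have : CompleteSpace S.range := hclosed.completeSpace_coe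
    rw [← Submodule.orthogonal_eq_bot_iff, Submodule.eq_bot_iff]
    intro y hy
    rw [Submodule.mem_orthogonal] at hy
    have h1 : inner ℂ (S y) y = 0 := hy (S y) ⟨y, rfl⟩
    rw [hSi, inner_self_eq_zero] at h1
    have h2 := hCn y
    rw [h1, norm_zero] at h2
    have h3 : ‖y‖ ^ 2 ≤ 0 := by
      by_contra hcon
      push Not at hcon
      nlinarith
    have h4 : ‖y‖ = 0 := by
      have := sq_nonneg ‖y‖
      exact pow_eq_zero_iff (n := 2) (by norm_num) |>.1 (le_antisymm h3 this)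
    exact norm_eq_zero.1 h4
  set e := ContinuousLinearEquiv.ofBijective S hinj hrange with he
  refine ⟨⟨C, fun x i => rfl, (e.symm : H →L[ℂ] H), ?_, A, hA, hCn⟩⟩
  intro x y
  rw [← hSi]
  have : S (e.symm x) = x := ContinuousLinearEquiv.ofBijective_apply_symm_apply S hinj hrange x
  have h2 : S ((e.symm : H →L[ℂ] H) x) = x := this
  rw [h2]

namespace FrameData

variable (F : FrameData f)

/-- `⟨C R x, C R y⟩ = ⟨x, R y⟩`. -/
lemma inner_CR (x y : H) : inner ℂ (F.C (F.R x)) (F.C (F.R y)) = inner ℂ x (F.R y) :=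
  F.hR x (F.R y)

lemma inner_C_symm (x y : H) : inner ℂ (F.C x) (F.C (F.R y)) = inner ℂ x y := by
  have := congrArg (starRingEnd ℂ) (F.hR y x)
  simpa using this

lemma R_symm (x y : H) : inner ℂ (F.R x) y = inner ℂ x (F.R y) := by
  have h := F.inner_CR x y
  have h2 : inner ℂ (F.C (F.R x)) (F.C (F.R y)) = inner ℂ (F.R x) y := F.inner_C_symm _ _
  rw [← h, h2]

lemma C_inj {x : H} (h : F.C x = 0) : x = 0 := by
  have h2 := F.hAC x
  rw [h, norm_zero] at h2
  have h3 : ‖x‖ ^ 2 ≤ 0 := by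
    by_contra hcon
    push Not at hcon
    nlinarith [F.hA]
  have h4 : ‖x‖ = 0 := by
    have := sq_nonneg ‖x‖
    exact pow_eq_zero_iff (n := 2) (by norm_num) |>.1 (le_antisymm h3 this)
  exact norm_eq_zero.1 h4

include F in
lemma dense_span : (Submodule.span ℂ (Set.range f)).topologicalClosure = ⊤ := by
  rw [Submodule.topologicalClosure_eq_top_iff, Submodule.eq_bot_iff]
  intro x hx
  rw [Submodule.mem_orthogonal] at hx
  apply F.C_inj
  ext i
  rw [F.hC]
  simpa using hx (f i) (Submodule.subset_span ⟨i, rfl⟩)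

/-- The Gram-type kernel `γ i j = ⟨f i, R (f j)⟩`. -/
def gam (i j : ι) : ℂ := inner ℂ (f i) (F.R (f j))

lemma gam_conj (i j : ι) : (starRingEnd ℂ) (F.gam i j) = F.gam j i := by
  unfold gam
  rw [inner_conj_symm, F.R_symm]

lemma norm_gam_symm (i j : ι) : ‖F.gam i j‖ = ‖F.gam j i‖ := by
  rw [← F.gam_conj j i, RCLike.norm_conj]

lemma gam_eq (i j : ι) : F.gam i j = F.C (F.R (f j)) i := by
  rw [F.hC]; rfl

lemma norm_CR_sq (j : ι) : (‖F.C (F.R (f j))‖ ^ 2 : ℝ) = (F.gam j j).re := by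
  have h := F.inner_CR (f j) (f j)
  rw [inner_self_eq_norm_sq_to_K] at h
  have h2 : F.gam j j = ((‖F.C (F.R (f j))‖ ^ 2 : ℝ) : ℂ) := by
    unfold gam
    rw [← h]
    simp
  rw [h2, Complex.ofReal_re]

lemma gam_self (j : ι) : F.gam j j = ((‖F.C (F.R (f j))‖ ^ 2 : ℝ) : ℂ) := by
  have h := F.inner_CR (f j) (f j)
  rw [inner_self_eq_norm_sq_to_K] at h
  unfold gam
  rw [← h]
  simp

lemma summable_gam (j : ι) : Summable (fun i => ‖F.gam i j‖ ^ 2) := by
  have := lp_summable (F.C (F.R (f j)))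
  simpa [F.gam_eq] using this

lemma tsum_gam (j : ι) : ∑' i, ‖F.gam i j‖ ^ 2 = (F.gam j j).re := by
  rw [← F.norm_CR_sq, lp_norm_sq]
  simp [F.gam_eq]

/-- Key lemma: if a bounded operator maps `f i` to `f (s i)` with `s` injective, and
`γ i i` is `s`-invariant, then `γ` is `s`-invariant. -/
lemma gam_shift {s : ι → ι} (hs : Function.Injective s) (T : H →L[ℂ] H)
    (hT : ∀ i, T (f i) = f (s i)) (hconst : ∀ i, (F.gam (s i) (s i)).re = (F.gam i i).re)
    (i j : ι) : F.gam (s i) (s j) = F.gam i j := by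
  set Φ : H →L[ℂ] lp (fun _ : ι => ℂ) 2 := F.C.comp F.R with hΦ
  have hCT : ∀ y, ‖F.C (ContinuousLinearMap.adjoint T y)‖ ≤ ‖F.C y‖ := by
    intro y
    apply (pow_le_pow_iff_left₀ (norm_nonneg _) (norm_nonneg _) two_ne_zero).1
    rw [lp_norm_sq, lp_norm_sq]
    have h1 : ∀ i, F.C (ContinuousLinearMap.adjoint T y) i = F.C y (s i) := by
      intro i
      rw [F.hC, F.hC, ContinuousLinearMap.adjoint_inner_right, hT]
    simp only [h1]
    exact tsum_comp_le_tsum_of_inj (lp_summable (F.C y)) (fun _ => by positivity) hs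
  have hle : ∀ x, ‖(Φ.comp T) x‖ ≤ ‖Φ x‖ := by
    intro x
    by_cases h0 : ‖Φ (T x)‖ = 0
    · have : (Φ.comp T) x = Φ (T x) := rfl
      rw [this, h0]; exact norm_nonneg _
    have hpos : 0 < ‖Φ (T x)‖ := lt_of_le_of_ne (norm_nonneg _) (Ne.symm h0)
    have h1 : ‖Φ (T x)‖ * ‖Φ (T x)‖ ≤ ‖Φ x‖ * ‖Φ (T x)‖ := by
      calc ‖Φ (T x)‖ * ‖Φ (T x)‖ = ‖inner ℂ (Φ (T x)) (Φ (T x))‖ := by
            rw [@inner_self_eq_norm_sq_to_K ℂ]
            simp [sq]
        _ = ‖inner ℂ (T x) (F.R (T x))‖ := by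
            have := F.inner_CR (T x) (T x)
            rw [← this]; rfl
        _ = ‖inner ℂ x (ContinuousLinearMap.adjoint T (F.R (T x)))‖ := by
            rw [ContinuousLinearMap.adjoint_inner_right]
        _ = ‖inner ℂ (F.C (F.R x)) (F.C (ContinuousLinearMap.adjoint T (F.R (T x))))‖ := by
            rw [F.hR]
        _ ≤ ‖F.C (F.R x)‖ * ‖F.C (ContinuousLinearMap.adjoint T (F.R (T x)))‖ :=
            norm_inner_le_norm _ _
        _ ≤ ‖Φ x‖ * ‖Φ (T x)‖ := by
            have := hCT (F.R (T x))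
            have h3 : ‖F.C (F.R x)‖ = ‖Φ x‖ := rfl
            have h4 : ‖F.C (F.R (T x))‖ = ‖Φ (T x)‖ := rfl
            rw [h3, ← h4]
            gcongr
    exact le_of_mul_le_mul_right h1 hpos
  have hnorm : ∀ k, ‖Φ (f k)‖ ^ 2 = (F.gam k k).re := fun k => F.norm_CR_sq k
  have heq : ‖(Φ.comp T) (f i)‖ = ‖Φ (f i)‖ := by
    have h1 : (Φ.comp T) (f i) = Φ (f (s i)) := by
      simp [hT]
    rw [h1]
    have h2 := hnorm (s i)
    have h3 := hnorm i
    rw [hconst i] at h2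
    exact (sq_eq_sq₀ (norm_nonneg _) (norm_nonneg _)).1 (h2.trans h3.symm)
  have hfin := inner_eq_of_norm_le Φ.toLinearMap (Φ.comp T).toLinearMap
    (fun x => hle x) (a := f i) heq (f j)
  have e1 : inner ℂ (Φ (f i)) (Φ (f j)) = F.gam i j := F.inner_CR (f i) (f j)
  have e2 : inner ℂ ((Φ.comp T) (f i)) ((Φ.comp T) (f j)) = F.gam (s i) (s j) := by
    have h1 : (Φ.comp T) (f i) = Φ (f (s i)) := by simp [hT]
    have h2 : (Φ.comp T) (f j) = Φ (f (s j)) := by simp [hT]
    rw [h1, h2]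
    exact F.inner_CR (f (s i)) (f (s j))
  rw [← e1, ← e2]
  exact hfin.symm

include F in
lemma R_inj {x : H} (h : F.R x = 0) : x = 0 := by
  have h1 := F.hR x x
  rw [h, map_zero, inner_zero_left] at h1
  exact inner_self_eq_zero.1 h1.symm

/-- If the off-diagonal part of `γ` vanishes and `f j ≠ 0`, then `γ j j = 1`. -/
lemma gam_self_eq_one (hoff : ∀ i j, i ≠ j → F.gam i j = 0) (j : ι) (hj : f j ≠ 0) :
    F.gam j j = 1 := by
  classical
  set g : ℝ := ‖F.C (F.R (f j))‖ ^ 2 with hg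
  have hgam : F.gam j j = ((g : ℝ) : ℂ) := F.gam_self j
  have h1 := F.tsum_gam j
  rw [tsum_eq_single j (fun i hi => by simp [hoff i j hi]), hgam] at h1
  rw [Complex.norm_real, Complex.ofReal_re, Real.norm_eq_abs, sq_abs] at h1
  have hg0 : g ≠ 0 := by
    intro h0
    rw [hg] at h0
    have h2 : F.C (F.R (f j)) = 0 := norm_eq_zero.1 (pow_eq_zero_iff (n := 2) (by norm_num) |>.1 h0)
    exact hj (F.R_inj (F.C_inj h2))
  have : g = 1 := by
    have h3 : g * (g - 1) = 0 := by linarith [h1]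
    rcases mul_eq_zero.1 h3 with h4 | h4
    · exact absurd h4 hg0
    · linarith
  rw [hgam, this]; simp

/-- If `γ` is the identity matrix then `f` is a Riesz basis. -/
lemma isRieszBasis (hoff : ∀ i j, i ≠ j → F.gam i j = 0) (hne : ∀ i, f i ≠ 0) :
    IsRieszBasis f := by
  classical
  refine ⟨F.dense_span, F.A, ‖F.C‖ ^ 2 + 1, F.hA, by positivity, ?_⟩
  intro s c
  set x := ∑ i ∈ s, c i • f i with hx
  constructor
  · -- lower bound
    have hcoord : ∀ j, F.C (F.R x) j = if j ∈ s then c j else 0 := by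
      intro j
      rw [F.hC, hx, map_sum, inner_sum]
      have : ∀ i ∈ s, inner ℂ (f j) (F.R (c i • f i)) = if j = i then c i else 0 := by
        intro i _
        rw [map_smul, inner_smul_right]
        have h2 : inner ℂ (f j) (F.R (f i)) = F.gam j i := rfl
        rw [h2]
        split_ifs with h
        · subst h
          rw [F.gam_self_eq_one hoff j (hne j), mul_one]
        · rw [hoff j i h, mul_zero]
      rw [Finset.sum_congr rfl this]
      simp
    have hsum : ‖F.C (F.R x)‖ ^ 2 = ∑ i ∈ s, ‖c i‖ ^ 2 := by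
      rw [lp_norm_sq]
      rw [tsum_eq_sum (s := s)]
      · apply Finset.sum_congr rfl
        intro i hi
        rw [hcoord, if_pos hi]
      · intro i hi
        rw [hcoord, if_neg hi]
        simp
    rw [← hsum]
    -- A ‖C R x‖² ≤ ‖x‖²
    set y := ‖F.C (F.R x)‖ with hy
    have h1 : y ^ 2 ≤ ‖x‖ * ‖F.R x‖ := by
      calc y ^ 2 = ‖inner ℂ (F.C (F.R x)) (F.C (F.R x))‖ := by
            rw [@inner_self_eq_norm_sq_to_K ℂ]
            simp [hy]
        _ = ‖inner ℂ x (F.R x)‖ := by rw [F.inner_CR]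
        _ ≤ ‖x‖ * ‖F.R x‖ := norm_inner_le_norm _ _
    have h2 : F.A * ‖F.R x‖ ^ 2 ≤ y ^ 2 := F.hAC (F.R x)
    have hA := F.hA
    have hy0 : 0 ≤ y := norm_nonneg _
    have h3 : y ^ 4 ≤ ‖x‖ ^ 2 * ‖F.R x‖ ^ 2 := by
      have : (y ^ 2) ^ 2 ≤ (‖x‖ * ‖F.R x‖) ^ 2 := by gcongr
      nlinarith
    have h4 : F.A * y ^ 4 ≤ ‖x‖ ^ 2 * y ^ 2 := by
      have := mul_le_mul_of_nonneg_left h2 (sq_nonneg ‖x‖)
      nlinarith
    by_cases hy1 : y = 0
    · rw [hy1]
      simp [sq_nonneg]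
    · have hypos : 0 < y ^ 2 := by positivity
      have h5 : (F.A * y ^ 2) * y ^ 2 ≤ ‖x‖ ^ 2 * y ^ 2 := by nlinarith
      exact le_of_mul_le_mul_right h5 hypos
  · -- upper bound
    have h1 : ‖x‖ ^ 2 ≤ Real.sqrt (∑ i ∈ s, ‖c i‖ ^ 2) * (‖F.C‖ * ‖x‖) := by
      calc ‖x‖ ^ 2 = ‖inner ℂ x x‖ := by
            rw [@inner_self_eq_norm_sq_to_K ℂ]
            simp
        _ = ‖∑ i ∈ s, (starRingEnd ℂ) (c i) * inner ℂ (f i) x‖ := by
            conv_lhs => rw [hx, sum_inner]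
            simp only [inner_smul_left]
            rw [← hx]
        _ ≤ ∑ i ∈ s, ‖c i‖ * ‖inner ℂ (f i) x‖ := by
            refine (norm_sum_le _ _).trans (le_of_eq ?_)
            apply Finset.sum_congr rfl
            intro i _
            rw [norm_mul, RCLike.norm_conj]
        _ ≤ Real.sqrt (∑ i ∈ s, ‖c i‖ ^ 2) * Real.sqrt (∑ i ∈ s, ‖inner ℂ (f i) x‖ ^ 2) :=
            Real.sum_mul_le_sqrt_mul_sqrt _ _ _
        _ ≤ Real.sqrt (∑ i ∈ s, ‖c i‖ ^ 2) * (‖F.C‖ * ‖x‖) := by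
            gcongr
            apply Real.sqrt_le_iff.2
            refine ⟨by positivity, ?_⟩
            have h5 : ∑ i ∈ s, ‖inner ℂ (f i) x‖ ^ 2 ≤ ‖F.C x‖ ^ 2 := by
              rw [lp_norm_sq]
              simp only [← F.hC]
              exact (lp_summable (F.C x)).sum_le_tsum s (fun _ _ => by positivity)
            refine h5.trans ?_
            have := F.C.le_opNorm x
            gcongr
    set S := ∑ i ∈ s, ‖c i‖ ^ 2 with hS
    have hS0 : 0 ≤ S := Finset.sum_nonneg (fun _ _ => by positivity)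
    have hsq : Real.sqrt S ^ 2 = S := Real.sq_sqrt hS0
    by_cases hx0 : ‖x‖ = 0
    · rw [hx0]
      simp only [ne_eq, OfNat.ofNat_ne_zero, not_false_eq_true, zero_pow]
      positivity
    · have hxp : 0 < ‖x‖ := lt_of_le_of_ne (norm_nonneg _) (Ne.symm hx0)
      have h2 : ‖x‖ * ‖x‖ ≤ (Real.sqrt S * ‖F.C‖) * ‖x‖ := by nlinarith
      have h3 : ‖x‖ ≤ Real.sqrt S * ‖F.C‖ := le_of_mul_le_mul_right h2 hxp
      calc ‖x‖ ^ 2 ≤ (Real.sqrt S * ‖F.C‖) ^ 2 := by gcongr
        _ = ‖F.C‖ ^ 2 * S := by rw [mul_pow, hsq]; ring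
        _ ≤ (‖F.C‖ ^ 2 + 1) * S := by nlinarith

end FrameData

end Operator

section Riesz

variable {ι κ : Type*} {f : ι → H}

omit [CompleteSpace H] in
lemma IsRieszBasis.comp_equiv (hf : IsRieszBasis f) (σ : κ ≃ ι) :
    IsRieszBasis (fun k => f (σ k)) := by
  classical
  obtain ⟨hd, A, B, hA, hB, h⟩ := hf
  have hr : Set.range (fun k => f (σ k)) = Set.range f := by
    have : (fun k => f (σ k)) = f ∘ σ := rfl
    rw [this, EquivLike.range_comp]
  refine ⟨by rw [hr]; exact hd, A, B, hA, hB, ?_⟩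
  intro s c
  have := h (s.map σ.toEmbedding) (fun i => c (σ.symm i))
  simpa using this

omit [CompleteSpace H] in
lemma IsRieszBasis.linearIndependent (hf : IsRieszBasis f) : LinearIndependent ℂ f := by
  classical
  obtain ⟨hd, A, B, hA, hB, h⟩ := hf
  rw [linearIndependent_iff']
  intro s g hg i hi
  have h1 := (h s g).1
  rw [hg] at h1
  simp only [norm_zero, ne_eq, OfNat.ofNat_ne_zero, not_false_eq_true, zero_pow] at h1
  have h2 : ∑ i ∈ s, ‖g i‖ ^ 2 ≤ 0 := by
    by_contra hcon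
    push Not at hcon
    nlinarith
  have h3 : ‖g i‖ ^ 2 ≤ 0 :=
    (Finset.single_le_sum (f := fun i => ‖g i‖ ^ 2) (fun _ _ => by positivity) hi).trans h2
  have h4 : ‖g i‖ = 0 := by
    have := sq_nonneg ‖g i‖
    exact pow_eq_zero_iff (n := 2) (by norm_num) |>.1 (le_antisymm h3 this)
  exact norm_eq_zero.1 h4

omit [CompleteSpace H] in
/-- In a Riesz basis every injective relabelling of the elements is induced by a bounded
injective operator on the span. -/
lemma IsRieszBasis.exists_shift (hf : IsRieszBasis f) {s : ι → ι} (hs : Function.Injective s) :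
    ∃ T : Submodule.span ℂ (Set.range f) →L[ℂ] H, Function.Injective T ∧
      ∀ i, T ⟨f i, Submodule.subset_span ⟨i, rfl⟩⟩ = f (s i) := by
  classical
  have hli := hf.linearIndependent
  obtain ⟨hd, A, B, hA, hB, h⟩ := hf
  set T₀ : Submodule.span ℂ (Set.range f) →ₗ[ℂ] H :=
    (Finsupp.linearCombination ℂ (fun i => f (s i))).comp hli.repr with hT₀
  have hli2 : LinearIndependent ℂ (fun i => f (s i)) := hli.comp s hs
  have hbound : ∀ x, ‖T₀ x‖ ≤ Real.sqrt (B / A) * ‖x‖ := by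
    intro x
    set c := hli.repr x with hc
    have hx : (x : H) = ∑ i ∈ c.support, c i • f i := by
      have := hli.linearCombination_repr x
      rw [← hc, Finsupp.linearCombination_apply] at this
      exact this.symm
    have hTx : T₀ x = ∑ i ∈ c.support, c i • f (s i) := by
      rw [hT₀, LinearMap.comp_apply, ← hc, Finsupp.linearCombination_apply]
      rfl
    -- choose coefficients on the image
    have h1 : ‖T₀ x‖ ^ 2 ≤ B * ∑ i ∈ c.support, ‖c i‖ ^ 2 := by
      by_cases hne : Nonempty ι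
      · have := (h (c.support.map ⟨s, hs⟩) (fun i => c (Function.invFun s i))).2
        rw [Finset.sum_map, Finset.sum_map] at this
        simp only [Function.Embedding.coeFn_mk, Function.leftInverse_invFun hs _] at this
        rw [hTx]
        exact this
      · have : c.support = ∅ := by
          ext i
          exact absurd ⟨i⟩ hne
        rw [hTx, this]
        simp
    have h2 : A * ∑ i ∈ c.support, ‖c i‖ ^ 2 ≤ ‖x‖ ^ 2 := by
      have := (h c.support c).1
      rw [← hx] at this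
      exact this
    have h3 : ‖T₀ x‖ ^ 2 ≤ (B / A) * ‖x‖ ^ 2 := by
      have h4 : ∑ i ∈ c.support, ‖c i‖ ^ 2 ≤ ‖x‖ ^ 2 / A := by
        rw [le_div_iff₀ hA]; linarith
      calc ‖T₀ x‖ ^ 2 ≤ B * ∑ i ∈ c.support, ‖c i‖ ^ 2 := h1
        _ ≤ B * (‖x‖ ^ 2 / A) := by gcongr
        _ = (B / A) * ‖x‖ ^ 2 := by ring
    have h5 : Real.sqrt (B / A) * ‖x‖ = Real.sqrt ((B / A) * ‖x‖ ^ 2) := by
      rw [Real.sqrt_mul' _ (sq_nonneg _), Real.sqrt_sq (norm_nonneg _)]
    rw [h5]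
    exact Real.le_sqrt_of_sq_le h3
  refine ⟨T₀.mkContinuous _ hbound, ?_, ?_⟩
  · intro x y hxy
    have hxy' : T₀ x = T₀ y := hxy
    rw [hT₀] at hxy'
    simp only [LinearMap.comp_apply] at hxy'
    have h1 := hli2 hxy'
    have h2 : LinearMap.ker hli.repr = ⊥ := hli.repr_ker
    exact (LinearMap.ker_eq_bot.1 h2) h1
  · intro i
    have : T₀.mkContinuous _ hbound ⟨f i, Submodule.subset_span ⟨i, rfl⟩⟩
        = T₀ ⟨f i, Submodule.subset_span ⟨i, rfl⟩⟩ := rfl
    rw [this, hT₀, LinearMap.comp_apply, hli.repr_eq_single i _ rfl]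
    simp

end Riesz

end Pool.Agent.MP_5c6457_an
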