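import Mathlib
import Pool.Agent.Lib.MP_5c6457_an.Defs
import Pool.Agent.Lib.MP_5c6457_an.Frames
import Pool.Agent.Lib.MP_5c6457_an.Comb

/-!
Orbits of bounded operators that are covariant frames: abstract part for MP_5c6457_an.
-/

open scoped ENNReal InnerProductSpace

noncomputable section

namespace Pool.Agent.MP_5c6457_an

variable {H : Type*} [NormedAddCommGroup H] [InnerProductSpace ℂ H]

lemma IsFrame.comp_equiv {ι κ : Type*} {f : ι → H} (hf : IsFrame f) (σ : κ ≃ ι) :
    IsFrame (fun k => f (σ k)) := by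
  obtain ⟨A, B, hA, hB, h⟩ := hf
  refine ⟨A, B, hA, hB, fun x => ?_⟩
  obtain ⟨h1, h2, h3⟩ := h x
  have e : ∑' k, ‖inner ℂ (f (σ k)) x‖ ^ 2 = ∑' i, ‖inner ℂ (f i) x‖ ^ 2 :=
    σ.tsum_eq (fun i => ‖inner ℂ (f i) x‖ ^ 2)
  refine ⟨(σ.summable_iff (f := fun i => ‖inner ℂ (f i) x‖ ^ 2)).2 h1, ?_, ?_⟩
  · rw [e]; exact h2
  · rw [e]; exact h3

variable [CompleteSpace H]

set_option linter.unusedSectionVars false

/-- A bounded operator on the span extends to the whole space. -/
lemma exists_extension {ι : Type*} {f : ι → H} {s : ι → ι}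
    (hd : (Submodule.span ℂ (Set.range f)).topologicalClosure = ⊤)
    (T : Submodule.span ℂ (Set.range f) →L[ℂ] H)
    (hT : ∀ i, T ⟨f i, Submodule.subset_span ⟨i, rfl⟩⟩ = f (s i)) :
    ∃ T' : H →L[ℂ] H, ∀ i, T' (f i) = f (s i) := by
  have hdense : DenseRange (Submodule.span ℂ (Set.range f)).subtypeL := by
    have h1 : Dense ((Submodule.span ℂ (Set.range f) : Submodule ℂ H) : Set H) :=
      (Submodule.dense_iff_topologicalClosure_eq_top).2 hd
    have h2 : Set.range (Submodule.span ℂ (Set.range f)).subtypeL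
        = ((Submodule.span ℂ (Set.range f) : Submodule ℂ H) : Set H) := by
      ext x; simp
    unfold DenseRange
    rw [h2]
    exact h1
  have hui : IsUniformInducing (Submodule.span ℂ (Set.range f)).subtypeL :=
    isUniformEmbedding_subtype_val.isUniformInducing
  refine ⟨T.extend (Submodule.span ℂ (Set.range f)).subtypeL, fun i => ?_⟩
  have := T.extend_eq hdense hui ⟨f i, Submodule.subset_span ⟨i, rfl⟩⟩
  rw [hT i] at this
  exact this

namespace FrameData

variable {ι : Type*} {f : ι → H} (F : FrameData f)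

/-- Covariance of `γ` under a surjective isometry permuting the frame elements up to phases. -/
lemma gam_covariant (π : H →ₗᵢ[ℂ] H) (hπ : Function.Surjective π) (τ : ι ≃ ι) (c : ι → ℂ)
    (hc : ∀ i, ‖c i‖ = 1) (hfc : ∀ i, π (f i) = c i • f (τ i)) (i j : ι) :
    c i * (starRingEnd ℂ) (c j) * F.gam i j = F.gam (τ i) (τ j) := by
  have hcc : ∀ i, (starRingEnd ℂ) (c i) * c i = 1 := by
    intro i
    rw [mul_comm, Complex.mul_conj, Complex.normSq_eq_norm_sq, hc i]
    simp
  have hf' : ∀ i, f (τ i) = (starRingEnd ℂ) (c i) • π (f i) := by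
    intro i
    rw [hfc, smul_smul, hcc, one_smul]
  -- `C π x (τ i) = c i * C x i`
  have hCπ : ∀ x i, F.C (π x) (τ i) = c i * F.C x i := by
    intro x i
    rw [F.hC, F.hC, hf' i, inner_smul_left, π.inner_map_map]
    simp
  have hCC : ∀ x y, inner ℂ (F.C (π x)) (F.C (π y)) = inner ℂ (F.C x) (F.C y) := by
    intro x y
    rw [lp.inner_eq_tsum, lp.inner_eq_tsum]
    rw [← τ.tsum_eq]
    apply tsum_congr
    intro i
    rw [hCπ, hCπ, RCLike.inner_apply, RCLike.inner_apply, map_mul]
    have := hcc i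
    calc c i * F.C y i * ((starRingEnd ℂ) (c i) * (starRingEnd ℂ) (F.C x i))
        = ((starRingEnd ℂ) (c i) * c i) * (F.C y i * (starRingEnd ℂ) (F.C x i)) := by ring
      _ = F.C y i * (starRingEnd ℂ) (F.C x i) := by rw [this, one_mul]
  have hRπ : ∀ x, F.R (π x) = π (F.R x) := by
    intro x
    have h1 : ∀ y, inner ℂ (F.C (F.R (π x) - π (F.R x))) (F.C y) = 0 := by
      intro y
      obtain ⟨y', rfl⟩ := hπ y
      rw [map_sub, inner_sub_left, hCC, F.hR, F.hR, π.inner_map_map, sub_self]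
    have h2 := h1 (F.R (π x) - π (F.R x))
    rw [inner_self_eq_zero] at h2
    exact sub_eq_zero.1 (F.C_inj h2)
  unfold gam
  rw [hf' i, hf' j, map_smul, inner_smul_left, inner_smul_right, hRπ, π.inner_map_map]
  simp only [Complex.conj_conj]
  ring

/-- Transitive covariance data for a frame indexed by `ι`, relabelled by `σ : ι ≃ ℤ × ℤ`. -/
structure Covariant (f : ι → H) (σ : ι ≃ ℤ × ℤ) : Prop where
  cov : ∀ l : ℤ × ℤ, ∃ (π : H →ₗᵢ[ℂ] H) (c : ι → ℂ), Function.Surjective π ∧ (∀ i, ‖c i‖ = 1) ∧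
    ∀ i, π (f i) = c i • f (σ.symm (σ i + l))

lemma norm_gam_translate {σ : ι ≃ ℤ × ℤ} (hcov : Covariant f σ) (l : ℤ × ℤ) (i j : ι) :
    ‖F.gam (σ.symm (σ i + l)) (σ.symm (σ j + l))‖ = ‖F.gam i j‖ := by
  obtain ⟨π, c, hπ, hc, hfc⟩ := hcov.cov l
  set τ : ι ≃ ι := (σ.trans (Equiv.addRight l)).trans σ.symm with hτ
  have h := F.gam_covariant π hπ τ c hc hfc i j
  have e1 : τ i = σ.symm (σ i + l) := rfl
  have e2 : τ j = σ.symm (σ j + l) := rfl
  rw [← e1, ← e2, ← h, norm_mul, norm_mul, RCLike.norm_conj, hc, hc]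
  ring

lemma gam_diag_const {σ : ι ≃ ℤ × ℤ} (hcov : Covariant f σ) (i j : ι) :
    (F.gam i i).re = (F.gam j j).re := by
  have h := F.norm_gam_translate hcov (σ j - σ i) i i
  rw [add_sub_cancel, Equiv.symm_apply_apply] at h
  rw [F.gam_self, F.gam_self] at h ⊢
  rw [Complex.norm_real, Complex.norm_real, Real.norm_eq_abs, Real.norm_eq_abs,
    abs_of_nonneg (by positivity), abs_of_nonneg (by positivity)] at h
  rw [Complex.ofReal_re, Complex.ofReal_re, h]

end FrameData

open FrameData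

/-- Index set `ℕ₀`: a covariant frame that is an orbit of a bounded operator is a Riesz basis. -/
theorem riesz_of_nat {f : ℕ → H} (hf : IsFrame f) (hne : ∀ i, f i ≠ 0) {σ : ℕ ≃ ℤ × ℤ}
    (hcov : Covariant f σ) (hrep : HasBoundedRepNat f) : IsRieszBasis f := by
  obtain ⟨F⟩ := exists_frameData hf
  obtain ⟨φ, T, -, hT⟩ := hrep
  obtain ⟨T', hT'⟩ := exists_extension (s := fun k => k + 1) F.dense_span T hT
  have hshift : ∀ i j, F.gam (i + 1) (j + 1) = F.gam i j :=
    F.gam_shift (s := fun k => k + 1) (add_left_injective 1) T' hT'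
      (fun i => F.gam_diag_const hcov _ _)
  have hzero : ∀ l, F.gam 0 (l + 1) = 0 := by
    intro l
    have h1 := F.tsum_gam (l + 1)
    have h2 := F.tsum_gam l
    have h3 := (F.summable_gam (l + 1)).tsum_eq_zero_add
    rw [h1] at h3
    simp only [hshift] at h3
    rw [h2] at h3
    have h4 : ‖F.gam 0 (l + 1)‖ ^ 2 = 0 := by linarith
    exact norm_eq_zero.1 (pow_eq_zero_iff (n := 2) (by norm_num) |>.1 h4)
  have hshiftn : ∀ n i j, F.gam (i + n) (j + n) = F.gam i j := by
    intro n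
    induction n with
    | zero => intro i j; rfl
    | succ n ih =>
      intro i j
      have : F.gam (i + n + 1) (j + n + 1) = F.gam (i + n) (j + n) := hshift _ _
      rw [← ih i j, ← this]; rfl
  have hlt : ∀ i j, i < j → F.gam i j = 0 := by
    intro i j hij
    obtain ⟨m, rfl⟩ := Nat.exists_eq_add_of_lt hij
    have h1 := hshiftn i 0 (m + 1)
    have e1 : 0 + i = i := by omega
    have e2 : m + 1 + i = i + m + 1 := by omega
    rw [e1, e2] at h1
    rw [h1]
    exact hzero m
  refine F.isRieszBasis ?_ hne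
  intro i j hij
  rcases lt_or_gt_of_ne hij with h | h
  · exact hlt i j h
  · have := hlt j i h
    have h2 := F.norm_gam_symm i j
    rw [this, norm_zero] at h2
    exact norm_eq_zero.1 h2

/-- Index set `ℤ`: a covariant frame that is an orbit of a bounded operator is a Riesz basis. -/
theorem riesz_of_int {f : ℤ → H} (hf : IsFrame f) (hne : ∀ i, f i ≠ 0) {σ : ℤ ≃ ℤ × ℤ}
    (hcov : Covariant f σ) (hrep : HasBoundedRepInt f) : IsRieszBasis f := by
  obtain ⟨F⟩ := exists_frameData hf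
  obtain ⟨φ, T, -, -, hT⟩ := hrep
  obtain ⟨T', hT'⟩ := exists_extension (s := fun k => k + 1) F.dense_span T hT
  have hshift : ∀ i j : ℤ, F.gam (i + 1) (j + 1) = F.gam i j :=
    F.gam_shift (s := fun k => k + 1) (add_left_injective 1) T' hT'
      (fun i => F.gam_diag_const hcov _ _)
  have hshiftk : ∀ k i j : ℤ, F.gam (i + k) (j + k) = F.gam i j := by
    intro k
    induction k using Int.induction_on with
    | zero => intro i j; simp
    | succ n ih =>
      intro i j
      rw [← ih i j, ← hshift (i + n) (j + n)]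
      congr 1 <;> ring
    | pred n ih =>
      intro i j
      rw [← ih i j, ← hshift (i + (-n - 1)) (j + (-n - 1))]
      congr 1 <;> ring
  set c : ℤ → ℝ := fun j => ‖F.gam j 0‖ with hc
  set A : ℤ × ℤ → ℝ := fun p => ‖F.gam (σ.symm (p + σ 0)) 0‖ with hA
  have hcA : ∀ k j : ℤ, c j = A (σ (k + j) - σ k) := by
    intro k j
    have h1 := F.norm_gam_translate hcov (σ k - σ 0) (σ.symm (σ (k + j) - σ k + σ 0)) 0
    rw [Equiv.apply_symm_apply] at h1
    have e1 : σ (k + j) - σ k + σ 0 + (σ k - σ 0) = σ (k + j) := by abel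
    have e2 : σ 0 + (σ k - σ 0) = σ k := by abel
    rw [e1, e2, Equiv.symm_apply_apply, Equiv.symm_apply_apply] at h1
    simp only [hc, hA]
    rw [← h1]
    have := hshiftk k j 0
    rw [← this]
    congr 2 <;> ring
  have hfin : ∀ ε : ℝ, 0 < ε → {p : ℤ × ℤ | ε ≤ A p}.Finite := by
    intro ε hε
    have hs := F.summable_gam 0
    have ht := hs.tendsto_cofinite_zero
    have hev : ∀ᶠ i in Filter.cofinite, ‖F.gam i 0‖ ^ 2 < ε ^ 2 :=
      ht.eventually_lt_const (by positivity)
    rw [Filter.eventually_cofinite] at hev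
    have hsub : {p : ℤ × ℤ | ε ≤ A p} ⊆
        (fun p => σ.symm (p + σ 0)) ⁻¹' {i | ¬ ‖F.gam i 0‖ ^ 2 < ε ^ 2} := by
      intro p hp
      simp only [Set.mem_preimage, Set.mem_ofPred_eq, not_lt]
      have : ε ≤ ‖F.gam (σ.symm (p + σ 0)) 0‖ := hp
      gcongr
    refine (Set.Finite.preimage ?_ hev).subset hsub
    intro a _ b _ hab
    have h1 := σ.symm.injective hab
    exact add_right_cancel h1
  have hoff0 : ∀ j : ℤ, j ≠ 0 → F.gam j 0 = 0 := by
    intro j hj
    have h1 := comb_lemma σ c A hcA hfin j hj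
    exact norm_le_zero_iff.1 h1
  refine F.isRieszBasis ?_ hne
  intro i j hij
  have h1 := hshiftk j (i - j) 0
  rw [sub_add_cancel, zero_add] at h1
  rw [h1]
  exact hoff0 _ (sub_ne_zero.2 hij)

end Pool.Agent.MP_5c6457_an
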