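import Mathlib
import Pool.Agent.Lib.MP_5c6457_an.Defs
import Pool.Agent.Lib.MP_5c6457_an.Orbit

/-!
Translations, modulations and covariance of Gabor systems, for MP_5c6457_an.
-/

open MeasureTheory

noncomputable section

namespace Pool.Agent.MP_5c6457_an

lemma translation_ae (x : ℝ) (f : L2R) : translation x f =ᵐ[volume] fun t => f (t - x) :=
  Lp.coeFn_compMeasurePreserving f (measurePreserving_sub_right volume x)

lemma modulation_ae (x : ℝ) (f : L2R) : modulation x f =ᵐ[volume]
    fun t : ℝ => Complex.exp (2 * Real.pi * Complex.I * x * t) * f t :=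
  MemLp.coeFn_toLp _

lemma ae_comp_sub {P : ℝ → Prop} (x : ℝ) (h : ∀ᵐ t ∂(volume : Measure ℝ), P t) :
    ∀ᵐ t ∂(volume : Measure ℝ), P (t - x) :=
  (measurePreserving_sub_right volume x).quasiMeasurePreserving.ae h

lemma norm_modulation (x : ℝ) (f : L2R) : ‖modulation x f‖ = ‖f‖ := by
  rw [modulation, Lp.norm_toLp, Lp.norm_def]
  congr 1
  apply eLpNorm_congr_norm_ae
  filter_upwards with t
  rw [norm_mul, norm_expI, one_mul]

lemma norm_translation (x : ℝ) (f : L2R) : ‖translation x f‖ = ‖f‖ :=
  Lp.norm_compMeasurePreserving f (measurePreserving_sub_right volume x)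

/-- Translation as a linear isometry. -/
def translationL (x : ℝ) : L2R →ₗᵢ[ℂ] L2R where
  toFun := translation x
  map_add' f g := by
    apply Lp.ext
    filter_upwards [translation_ae x (f + g), Lp.coeFn_add (translation x f) (translation x g),
      translation_ae x f, translation_ae x g, ae_comp_sub x (Lp.coeFn_add f g)] with t h1 h2 h3 h4 h5
    rw [h1, h2, Pi.add_apply, h3, h4, h5, Pi.add_apply]
  map_smul' c f := by
    apply Lp.ext
    filter_upwards [translation_ae x (c • f), Lp.coeFn_smul c (translation x f),
      translation_ae x f, ae_comp_sub x (Lp.coeFn_smul c f)] with t h1 h2 h3 h4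
    rw [h1, RingHom.id_apply, h2, Pi.smul_apply, h3, h4, Pi.smul_apply]
  norm_map' f := norm_translation x f

/-- Modulation as a linear isometry. -/
def modulationL (x : ℝ) : L2R →ₗᵢ[ℂ] L2R where
  toFun := modulation x
  map_add' f g := by
    apply Lp.ext
    filter_upwards [modulation_ae x (f + g), Lp.coeFn_add (modulation x f) (modulation x g),
      modulation_ae x f, modulation_ae x g, Lp.coeFn_add f g] with t h1 h2 h3 h4 h5
    rw [h1, h2, Pi.add_apply, h3, h4, h5, Pi.add_apply, mul_add]
  map_smul' c f := by
    apply Lp.ext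
    filter_upwards [modulation_ae x (c • f), Lp.coeFn_smul c (modulation x f),
      modulation_ae x f, Lp.coeFn_smul c f] with t h1 h2 h3 h4
    rw [h1, RingHom.id_apply, h2, Pi.smul_apply, h3, h4, Pi.smul_apply, smul_eq_mul, smul_eq_mul]
    ring
  norm_map' f := norm_modulation x f

@[simp] lemma translationL_apply (x : ℝ) (f : L2R) : translationL x f = translation x f := rfl
@[simp] lemma modulationL_apply (x : ℝ) (f : L2R) : modulationL x f = modulation x f := rfl

lemma translation_translation (x y : ℝ) (f : L2R) :
    translation x (translation y f) = translation (x + y) f := by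
  apply Lp.ext
  filter_upwards [translation_ae x (translation y f), ae_comp_sub x (translation_ae y f),
    translation_ae (x + y) f] with t h1 h2 h3
  rw [h1, h2, h3]
  congr 1
  ring

lemma modulation_modulation (x y : ℝ) (f : L2R) :
    modulation x (modulation y f) = modulation (x + y) f := by
  apply Lp.ext
  filter_upwards [modulation_ae x (modulation y f), modulation_ae y f,
    modulation_ae (x + y) f] with t h1 h2 h3
  rw [h1, h2, h3, ← mul_assoc, ← Complex.exp_add]
  congr 2
  push_cast
  ring

lemma translation_modulation (x y : ℝ) (f : L2R) :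
    translation x (modulation y f)
      = Complex.exp (2 * Real.pi * Complex.I * y * (-x : ℝ)) • modulation y (translation x f) := by
  apply Lp.ext
  filter_upwards [translation_ae x (modulation y f), ae_comp_sub x (modulation_ae y f),
    Lp.coeFn_smul (Complex.exp (2 * Real.pi * Complex.I * y * (-x : ℝ)))
      (modulation y (translation x f)),
    modulation_ae y (translation x f), translation_ae x f] with t h1 h2 h3 h4 h5
  rw [h1, h2, h3, Pi.smul_apply, h4, h5, smul_eq_mul, ← mul_assoc, ← Complex.exp_add]
  congr 2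
  push_cast
  ring

lemma translation_zero (f : L2R) : translation 0 f = f := by
  apply Lp.ext
  filter_upwards [translation_ae 0 f] with t h1
  rw [h1, sub_zero]

lemma modulation_zero (f : L2R) : modulation 0 f = f := by
  apply Lp.ext
  filter_upwards [modulation_ae 0 f] with t h1
  rw [h1]
  simp

lemma translation_surjective (x : ℝ) : Function.Surjective (translation x) := fun f =>
  ⟨translation (-x) f, by rw [translation_translation, add_neg_cancel, translation_zero]⟩

lemma modulation_surjective (x : ℝ) : Function.Surjective (modulation x) := fun f =>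
  ⟨modulation (-x) f, by rw [modulation_modulation, add_neg_cancel, modulation_zero]⟩

lemma norm_gabor (g : L2R) (a b : ℝ) (p : ℤ × ℤ) : ‖gabor g a b p‖ = ‖g‖ := by
  rw [gabor, norm_modulation, norm_translation]

lemma gabor_ne_zero {g : L2R} (hg : g ≠ 0) (a b : ℝ) (p : ℤ × ℤ) : gabor g a b p ≠ 0 := by
  rw [← norm_ne_zero_iff, norm_gabor]
  exact norm_ne_zero_iff.2 hg

/-- The time-frequency shift `E_{mb} T_{na}` as a linear isometry. -/
def tfShift (a b : ℝ) (l : ℤ × ℤ) : L2R →ₗᵢ[ℂ] L2R :=
  (modulationL (l.1 * b)).comp (translationL (l.2 * a))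

lemma tfShift_surjective (a b : ℝ) (l : ℤ × ℤ) : Function.Surjective (tfShift a b l) :=
  (modulation_surjective _).comp (translation_surjective _)

/-- The phase in the commutation relation. -/
def phase (a b : ℝ) (l p : ℤ × ℤ) : ℂ :=
  Complex.exp (2 * Real.pi * Complex.I * ((p.1 * b : ℝ) : ℂ) * ((-(l.2 * a) : ℝ) : ℂ))

lemma norm_phase (a b : ℝ) (l p : ℤ × ℤ) : ‖phase a b l p‖ = 1 := norm_expI _ _

lemma tfShift_gabor (g : L2R) (a b : ℝ) (l p : ℤ × ℤ) :
    tfShift a b l (gabor g a b p) = phase a b l p • gabor g a b (p + l) := by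
  have h : tfShift a b l (gabor g a b p)
      = modulationL (l.1 * b) (translation (l.2 * a) (modulation (p.1 * b)
          (translation (p.2 * a) g))) := rfl
  rw [h, translation_modulation, map_smul, modulationL_apply, modulation_modulation,
    translation_translation]
  unfold phase gabor
  congr 3
  · simp only [Prod.fst_add]; push_cast; ring
  · simp only [Prod.snd_add]; push_cast; ring

/-- Gabor systems are covariant, for every labelling. -/
lemma gabor_covariant {ι : Type*} (g : L2R) (a b : ℝ) (σ : ι ≃ ℤ × ℤ) :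
    FrameData.Covariant (fun k => gabor g a b (σ k)) σ where
  cov l := ⟨tfShift a b l, fun i => phase a b l (σ i), tfShift_surjective a b l,
    fun i => norm_phase a b l (σ i), fun i => by
      simp only [Equiv.apply_symm_apply]
      exact tfShift_gabor g a b l (σ i)⟩

theorem riesz_of_classNat {g : L2R} {a b : ℝ} (h : ClassNat g a b) :
    IsRieszBasis (gabor g a b) := by
  obtain ⟨hg, ha, hb, hf, σ, hrep⟩ := h
  have h1 := riesz_of_nat (hf.comp_equiv σ) (fun i => gabor_ne_zero hg a b _)
    (gabor_covariant g a b σ) hrep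
  have h2 := h1.comp_equiv σ.symm
  simpa using h2

theorem riesz_of_classInt {g : L2R} {a b : ℝ} (h : ClassInt g a b) :
    IsRieszBasis (gabor g a b) := by
  obtain ⟨hg, ha, hb, hf, σ, hrep⟩ := h
  have h1 := riesz_of_int (hf.comp_equiv σ) (fun i => gabor_ne_zero hg a b _)
    (gabor_covariant g a b σ) hrep
  have h2 := h1.comp_equiv σ.symm
  simpa using h2

lemma hasBoundedRepNat_of_riesz {f : ℤ × ℤ → L2R} (hf : IsRieszBasis f) (σ : ℕ ≃ ℤ × ℤ) :
    HasBoundedRepNat (fun k => f (σ k)) := by
  obtain ⟨T, -, hT⟩ := (hf.comp_equiv σ).exists_shift (s := fun k => k + 1)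
    (add_left_injective 1)
  exact ⟨f (σ 0), T, rfl, hT⟩

lemma hasBoundedRepInt_of_riesz {f : ℤ × ℤ → L2R} (hf : IsRieszBasis f) (σ : ℤ ≃ ℤ × ℤ) :
    HasBoundedRepInt (fun k => f (σ k)) := by
  obtain ⟨T, hTi, hT⟩ := (hf.comp_equiv σ).exists_shift (s := fun k => k + 1)
    (add_left_injective 1)
  exact ⟨f (σ 0), T, hTi, rfl, hT⟩

end Pool.Agent.MP_5c6457_an
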