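import Mathlib
import Pool.Agent.Lib.MP_5c6457_an.Defs
import Pool.Agent.Lib.MP_5c6457_an.Frames

/-!
A Riesz basis is a frame, for MP_5c6457_an.
-/

open scoped ENNReal InnerProductSpace

noncomputable section

namespace Pool.Agent.MP_5c6457_an

variable {H : Type*} [NormedAddCommGroup H] [InnerProductSpace ℂ H]

theorem IsRieszBasis.isFrame {ι : Type*} {f : ι → H} (hf : IsRieszBasis f) : IsFrame f := by
  classical
  obtain ⟨hd, A, B, hA, hB, h⟩ := hf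
  -- Bessel bound on finite sets
  have hbes : ∀ (x : H) (s : Finset ι), ∑ i ∈ s, ‖inner ℂ (f i) x‖ ^ 2 ≤ B * ‖x‖ ^ 2 := by
    intro x s
    set S := ∑ i ∈ s, ‖inner ℂ (f i) x‖ ^ 2 with hS
    have hS0 : 0 ≤ S := Finset.sum_nonneg (fun _ _ => by positivity)
    set y := ∑ i ∈ s, (inner ℂ (f i) x : ℂ) • f i with hy
    have h1 : ‖y‖ ^ 2 ≤ B * S := (h s (fun i => inner ℂ (f i) x)).2
    have h2 : inner ℂ y x = ((S : ℝ) : ℂ) := by
      rw [hy, sum_inner, hS]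
      push_cast
      apply Finset.sum_congr rfl
      intro i _
      rw [inner_smul_left, mul_comm, Complex.mul_conj, Complex.normSq_eq_norm_sq]
      push_cast; rfl
    have h3 : S ≤ ‖y‖ * ‖x‖ := by
      have := norm_inner_le_norm (𝕜 := ℂ) y x
      rw [h2, Complex.norm_real, Real.norm_eq_abs, abs_of_nonneg hS0] at this
      exact this
    have h4 : S ^ 2 ≤ (B * ‖x‖ ^ 2) * S := by
      have h5 : S ^ 2 ≤ (‖y‖ * ‖x‖) ^ 2 := by gcongr
      have h6 : (‖y‖ * ‖x‖) ^ 2 ≤ (B * S) * ‖x‖ ^ 2 := by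
        rw [mul_pow]; gcongr
      linarith
    by_cases hS1 : S = 0
    · rw [hS1]; positivity
    · have hSpos : 0 < S := lt_of_le_of_ne hS0 (Ne.symm hS1)
      have : S * S ≤ (B * ‖x‖ ^ 2) * S := by nlinarith
      exact le_of_mul_le_mul_right this hSpos
  have hs : ∀ x : H, Summable (fun i => ‖inner ℂ (f i) x‖ ^ 2) := fun x =>
    summable_of_sum_le (fun _ => by positivity) (hbes x)
  have hBt : ∀ x : H, ∑' i, ‖inner ℂ (f i) x‖ ^ 2 ≤ B * ‖x‖ ^ 2 := fun x =>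
    (hs x).tsum_le_of_sum_le (hbes x)
  refine ⟨A, B, hA, hB, fun x => ⟨hs x, ?_, hBt x⟩⟩
  set C := anal f B hs hBt with hC
  have hCn : ∀ x, ‖C x‖ ^ 2 = ∑' i, ‖inner ℂ (f i) x‖ ^ 2 := fun x => lp_norm_sq _
  rw [← hCn]
  have hclosed : IsClosed {x : H | A * ‖x‖ ^ 2 ≤ ‖C x‖ ^ 2} := by
    apply isClosed_le
    · fun_prop
    · fun_prop
  have hsub : ((Submodule.span ℂ (Set.range f) : Submodule ℂ H) : Set H) ⊆
      {x : H | A * ‖x‖ ^ 2 ≤ ‖C x‖ ^ 2} := by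
    intro y hy
    have hy' : y ∈ Submodule.span ℂ (Set.range f) := hy
    rw [Finsupp.mem_span_range_iff_exists_finsupp] at hy'
    obtain ⟨c, hc⟩ := hy'
    have hcy : y = ∑ i ∈ c.support, c i • f i := hc.symm
    set S := ∑ i ∈ c.support, ‖c i‖ ^ 2 with hS
    have hS0 : 0 ≤ S := Finset.sum_nonneg (fun _ _ => by positivity)
    have h1 : A * S ≤ ‖y‖ ^ 2 := by
      have := (h c.support c).1
      rwa [← hcy] at this
    have h2 : ‖y‖ ^ 2 ≤ Real.sqrt S * ‖C y‖ := by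
      calc ‖y‖ ^ 2 = ‖inner ℂ y y‖ := by
            rw [@inner_self_eq_norm_sq_to_K ℂ]
            simp
        _ = ‖∑ i ∈ c.support, (starRingEnd ℂ) (c i) * inner ℂ (f i) y‖ := by
            conv_lhs => rw [hcy, sum_inner]
            simp only [inner_smul_left]
            rw [← hcy]
        _ ≤ ∑ i ∈ c.support, ‖c i‖ * ‖inner ℂ (f i) y‖ := by
            refine (norm_sum_le _ _).trans (le_of_eq ?_)
            apply Finset.sum_congr rfl
            intro i _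
            rw [norm_mul, RCLike.norm_conj]
        _ ≤ Real.sqrt S * Real.sqrt (∑ i ∈ c.support, ‖inner ℂ (f i) y‖ ^ 2) :=
            Real.sum_mul_le_sqrt_mul_sqrt _ _ _
        _ ≤ Real.sqrt S * ‖C y‖ := by
            gcongr
            apply Real.sqrt_le_iff.2
            refine ⟨norm_nonneg _, ?_⟩
            rw [hCn]
            exact (hs y).sum_le_tsum _ (fun _ _ => by positivity)
    have h3 : ‖y‖ ^ 4 ≤ S * ‖C y‖ ^ 2 := by
      have h4 : (‖y‖ ^ 2) ^ 2 ≤ (Real.sqrt S * ‖C y‖) ^ 2 := by gcongr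
      rw [mul_pow, Real.sq_sqrt hS0] at h4
      calc ‖y‖ ^ 4 = (‖y‖ ^ 2) ^ 2 := by ring
        _ ≤ _ := h4
    show A * ‖y‖ ^ 2 ≤ ‖C y‖ ^ 2
    by_cases hy0 : ‖y‖ = 0
    · rw [hy0]; simp
    · have hyp : 0 < ‖y‖ ^ 2 := by positivity
      have h5 : (A * ‖y‖ ^ 2) * ‖y‖ ^ 2 ≤ ‖C y‖ ^ 2 * ‖y‖ ^ 2 := by
        calc (A * ‖y‖ ^ 2) * ‖y‖ ^ 2 = A * ‖y‖ ^ 4 := by ring
          _ ≤ A * (S * ‖C y‖ ^ 2) := by gcongr
          _ = (A * S) * ‖C y‖ ^ 2 := by ring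
          _ ≤ ‖y‖ ^ 2 * ‖C y‖ ^ 2 := by gcongr
          _ = ‖C y‖ ^ 2 * ‖y‖ ^ 2 := by ring
      exact le_of_mul_le_mul_right h5 hyp
  have hall : closure ((Submodule.span ℂ (Set.range f) : Submodule ℂ H) : Set H) ⊆
      {x : H | A * ‖x‖ ^ 2 ≤ ‖C x‖ ^ 2} := hclosed.closure_subset_iff.2 hsub
  have hx : x ∈ closure ((Submodule.span ℂ (Set.range f) : Submodule ℂ H) : Set H) := by
    rw [← Submodule.topologicalClosure_coe, hd]
    trivial
  exact hall hx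

end Pool.Agent.MP_5c6457_an
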